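import Pool.Agent.Helper29.AR.Props
import Pool.Agent.Helper10.RC.Homs
import Pool.Agent.Helper62.RC.Mp

/-!
# MP_b55b7c_an: rectangular matrices (packet AR-Rect)
-/

open scoped ENNReal NNReal InnerProductSpace ComplexOrder
open Filter Topology

attribute [-instance] CStarMatrix.instAlgebra CStarMatrix.instModule CStarMatrix.instSMul
  CStarMatrix.instMulAction CStarMatrix.instDistribMulAction

set_option linter.unusedSectionVars false
set_option linter.unusedSimpArgs false

noncomputable section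
namespace RC
universe u

namespace Rect

/-! ## The algebraic core -/

section alg
variable {C : Type u} [Ring C] {ρ κ : Type} [Fintype ρ] [DecidableEq ρ] [Fintype κ]
  [DecidableEq κ]

theorem alg_core (x0 b w : Matrix Unit Unit C) (a : Matrix Unit ρ C) (x : Matrix ρ Unit C)
    (h1 : a * x + b * w = 1) (Z0 : Matrix Unit κ C) (Z2 : Matrix ρ κ C) (a2 : Matrix κ ρ C)
    (b2 L2 : Matrix κ κ C) (h2 : a2 * Z2 + b2 * L2 = 1) :
    ∃ (A : Matrix (Unit ⊕ κ) (Unit ⊕ ρ) C) (B : Matrix (Unit ⊕ κ) (Unit ⊕ κ) C),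
      A * Matrix.fromBlocks x0 (Z0 - (1 - x0) * a * (x * Z0 + Z2)) x (x * Z0 + Z2) +
        B * Matrix.fromBlocks w 0 0 L2 = 1 := by
  have hax : a * x = 1 - b * w := eq_sub_of_add_eq h1
  have haz : a2 * Z2 = 1 - b2 * L2 := eq_sub_of_add_eq h2
  obtain ⟨g, hgd⟩ : ∃ g : Matrix (Unit ⊕ ρ) (Unit ⊕ ρ) C,
      g = Matrix.fromBlocks 1 ((1 - x0) * a) (-x) (1 - x * ((1 - x0) * a)) := ⟨_, rfl⟩
  obtain ⟨X, hX⟩ : ∃ X : Matrix (Unit ⊕ ρ) (Unit ⊕ κ) C,
      X = Matrix.fromBlocks x0 (Z0 - (1 - x0) * a * (x * Z0 + Z2)) x (x * Z0 + Z2) := ⟨_, rfl⟩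
  have hg : g * X =
      Matrix.fromBlocks (1 - (1 - x0) * b * w) Z0 (x * ((1 - x0) * b * w)) Z2 := by
    rw [hgd, hX, Matrix.fromBlocks_multiply]
    congr 1
    · simp only [Matrix.mul_sub, Matrix.sub_mul, Matrix.one_mul, Matrix.mul_one, Matrix.mul_assoc,
        hax]
      abel
    · simp only [Matrix.mul_sub, Matrix.sub_mul, Matrix.one_mul, Matrix.mul_one, Matrix.mul_assoc,
        Matrix.mul_add]
      abel
    · simp only [Matrix.mul_sub, Matrix.sub_mul, Matrix.one_mul, Matrix.mul_one, Matrix.mul_assoc,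
        Matrix.neg_mul, Matrix.mul_neg, hax]
      abel
    · simp only [Matrix.mul_sub, Matrix.sub_mul, Matrix.one_mul, Matrix.mul_one, Matrix.mul_assoc,
        Matrix.neg_mul, Matrix.mul_neg, Matrix.mul_add]
      abel
  obtain ⟨A1, hA1⟩ : ∃ A1 : Matrix (Unit ⊕ κ) (Unit ⊕ ρ) C,
      A1 = Matrix.fromBlocks 1 (-(Z0 * a2)) 0 a2 := ⟨_, rfl⟩
  obtain ⟨B, hB⟩ : ∃ B : Matrix (Unit ⊕ κ) (Unit ⊕ κ) C,
      B = Matrix.fromBlocks ((1 - x0) * b + Z0 * (a2 * (x * ((1 - x0) * b)))) (-(Z0 * b2))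
      (-(a2 * (x * ((1 - x0) * b)))) b2 := ⟨_, rfl⟩
  refine ⟨A1 * g, B, ?_⟩
  rw [← hX, Matrix.mul_assoc A1 g X, hg, hA1, hB, Matrix.fromBlocks_multiply,
    Matrix.fromBlocks_multiply, Matrix.fromBlocks_add, ← Matrix.fromBlocks_one]
  congr 1
  · simp only [Matrix.mul_sub, Matrix.sub_mul, Matrix.one_mul, Matrix.mul_one, Matrix.mul_assoc,
      Matrix.neg_mul, Matrix.mul_neg, Matrix.add_mul, Matrix.mul_zero, Matrix.mul_add]
    abel
  · simp only [Matrix.mul_sub, Matrix.one_mul, Matrix.mul_one, Matrix.mul_assoc,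
      Matrix.neg_mul, Matrix.mul_zero, haz]
    abel
  · simp only [Matrix.mul_sub, Matrix.sub_mul, Matrix.one_mul, Matrix.mul_assoc,
      Matrix.neg_mul, Matrix.zero_mul, Matrix.mul_zero]
    abel
  · simp only [Matrix.zero_mul, Matrix.mul_zero, haz]
    abel

end alg

variable {C R : Type u} [CStarAlgebra C] [PartialOrder C] [StarOrderedRing C]
  [CStarAlgebra R] [PartialOrder R] [StarOrderedRing R]

/-- The statement with entrywise estimates. -/
def PRe (j : C →⋆ₐ[ℂ] R) (ρ κ : Type) [Fintype ρ] [DecidableEq ρ] [Fintype κ]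
    [DecidableEq κ] : Prop :=
  ∀ (X : CStarMatrix ρ κ C) (η θ : ℝ), 0 < η → 0 < θ →
  ∃ (X' : CStarMatrix ρ κ C) (a : CStarMatrix κ ρ C) (b L : CStarMatrix κ κ C),
    (∀ i k, ‖X i k - X' i k‖ ≤ η) ∧ 0 ≤ L ∧ a * X' + b * L = 1 ∧ SmJ j θ L

/-! ## Reindexing -/

/-- The matrix of a map. -/
def pm (A : Type u) [CStarAlgebra A] {ι κ : Type} [DecidableEq κ] (f : ι → κ) :
    CStarMatrix ι κ A :=
  CStarMatrix.ofMatrix fun i k => if f i = k then 1 else 0

theorem pm_conj {A : Type u} [CStarAlgebra A] {ι κ : Type} [Fintype ι] [DecidableEq ι]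
    [Fintype κ] [DecidableEq κ] (f : ι → κ) (L : CStarMatrix κ κ A) (i i' : ι) :
    (pm A f * L * (pm A f).conjTranspose) i i' = L (f i) (f i') := by
  rw [CStarMatrix.mul_apply, Finset.sum_eq_single (f i')]
  · rw [CStarMatrix.mul_apply, Finset.sum_eq_single (f i)]
    · show (if f i = f i then (1 : A) else 0) * L (f i) (f i') *
        star (if f i' = f i' then (1 : A) else 0) = _
      simp
    · intro k _ hk
      show (if f i = k then (1 : A) else 0) * L k (f i') = 0
      rw [if_neg (Ne.symm hk), zero_mul]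
    · intro h
      exact absurd (Finset.mem_univ _) h
  · intro k _ hk
    show _ * star (if f i' = k then (1 : A) else 0) = 0
    rw [if_neg (Ne.symm hk), star_zero, mul_zero]
  · intro h
    exact absurd (Finset.mem_univ _) h

theorem mp_pm (j : C →⋆ₐ[ℂ] R) {ι κ : Type} [Fintype ι] [DecidableEq ι]
    [Fintype κ] [DecidableEq κ] (f : ι → κ) : mp j (pm C f) = pm R f := by
  ext i k
  show j (if f i = k then (1 : C) else 0) = if f i = k then (1 : R) else 0
  split_ifs
  · exact map_one j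
  · exact map_zero j

theorem Cu_conj {ι κ : Type} [Fintype ι] [DecidableEq ι] [Fintype κ] [DecidableEq κ]
    (v : CStarMatrix ι κ R) (b : CStarMatrix κ κ R) : Cu (v * b * v.conjTranspose) b := by
  intro ε hε
  refine ⟨v, ?_⟩
  rw [sub_self, norm_zero]
  exact hε

theorem PRe.reindex {j : C →⋆ₐ[ℂ] R} (hj : Function.Injective j) (hMp : MpP.{u})
    (hMono : QMonoP.{u}) {ρ κ ρ' κ' : Type} [Fintype ρ] [DecidableEq ρ]
    [Fintype κ] [DecidableEq κ] [Fintype ρ'] [DecidableEq ρ'] [Fintype κ'] [DecidableEq κ']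
    (h : PRe j ρ κ) (e : ρ' ≃ ρ) (f : κ' ≃ κ) : PRe j ρ' κ' := by
  intro X η θ hη hθ
  obtain ⟨X', a, b, L, h1, h2, h3, h4⟩ := h
    (CStarMatrix.ofMatrix fun i k => X (e.symm i) (f.symm k)) η θ hη hθ
  have hL : (CStarMatrix.ofMatrix fun i k => L (f i) (f k) : CStarMatrix κ' κ' C) =
      pm C f * L * (pm C f).conjTranspose := by
    ext i k
    rw [pm_conj]
    rfl
  refine ⟨CStarMatrix.ofMatrix fun i k => X' (e i) (f k),
    CStarMatrix.ofMatrix fun k i => a (f k) (e i),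
    CStarMatrix.ofMatrix fun i k => b (f i) (f k),
    CStarMatrix.ofMatrix fun i k => L (f i) (f k), ?_, ?_, ?_, ?_⟩
  · intro i k
    have := h1 (e i) (f k)
    have e1 : (CStarMatrix.ofMatrix fun i k => X (e.symm i) (f.symm k) : CStarMatrix ρ κ C)
        (e i) (f k) = X i k := by
      show X (e.symm (e i)) (f.symm (f k)) = X i k
      rw [Equiv.symm_apply_apply, Equiv.symm_apply_apply]
    rwa [e1] at this
  · rw [hL]
    exact cm_conj_nonneg _ h2
  · ext k l
    have h5 : (a * X' + b * L) (f k) (f l) = (1 : CStarMatrix κ κ C) (f k) (f l) := by rw [h3]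
    rw [CStarMatrix.add_apply, CStarMatrix.mul_apply, CStarMatrix.mul_apply,
      CStarMatrix.one_apply] at h5
    rw [CStarMatrix.add_apply, CStarMatrix.mul_apply, CStarMatrix.mul_apply,
      CStarMatrix.one_apply]
    have e1 : ∑ i, (CStarMatrix.ofMatrix (fun k i => a (f k) (e i)) : CStarMatrix κ' ρ' C) k i *
        (CStarMatrix.ofMatrix (fun i k => X' (e i) (f k)) : CStarMatrix ρ' κ' C) i l =
        ∑ i, a (f k) i * X' i (f l) := by
      rw [← Equiv.sum_comp e]
      rfl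
    have e2 : ∑ i, (CStarMatrix.ofMatrix (fun i k => b (f i) (f k)) : CStarMatrix κ' κ' C) k i *
        (CStarMatrix.ofMatrix (fun i k => L (f i) (f k)) : CStarMatrix κ' κ' C) i l =
        ∑ i, b (f k) i * L i (f l) := by
      rw [← Equiv.sum_comp f]
      rfl
    rw [e1, e2, h5]
    by_cases hkl : k = l
    · rw [if_pos hkl, if_pos (by rw [hkl])]
    · rw [if_neg hkl, if_neg (fun h => hkl (f.injective h))]
  · intro φ σ hσ
    rw [hL, H62.mp_mul, H62.mp_mul, H62.mp_conj, mp_pm]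
    have p1 : 0 ≤ mp j L := ((hMp R C j hj κ κ L L).1).1 h2
    exact (hMono R σ _ _ _ _ (cm_conj_nonneg _ p1) p1 (Cu_conj _ _)).trans (h4 φ σ hσ)

/-! ## One column -/

theorem base {j : C →⋆ₐ[ℂ] R} {n : ℕ} (h : TSJ j n) : PRe j (Fin n) Unit := by
  intro X η θ hη hθ
  obtain ⟨x', a, b, L, h1, h2, h3, h4⟩ := h (fun i => X i ()) η θ hη hθ
  refine ⟨CStarMatrix.ofMatrix fun i _ => x' i, CStarMatrix.ofMatrix fun _ i => a i, one1 b,
    one1 L, fun i k => h1 i, one1_nonneg h2, ?_, h4⟩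
  ext k l
  have e : ∑ u : Unit, (one1 b : CStarMatrix Unit Unit C) k u * one1 L u l = b * L := by
    rw [Fintype.sum_unique]
    rfl
  rw [CStarMatrix.add_apply, CStarMatrix.mul_apply, CStarMatrix.mul_apply, CStarMatrix.one_apply,
    if_pos rfl, e]
  exact h3

/-! ## The step -/

theorem mp_dsum (j : C →⋆ₐ[ℂ] R) {ι κ : Type} [Fintype ι] [DecidableEq ι]
    [Fintype κ] [DecidableEq κ] (a : CStarMatrix ι ι C) (b : CStarMatrix κ κ C) :
    mp j (dsum a b) = dsum (mp j a) (mp j b) := by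
  ext i k
  rcases i with i | i <;> rcases k with k | k
  · rfl
  · show j 0 = 0
    exact map_zero j
  · show j 0 = 0
    exact map_zero j
  · rfl

theorem step {j : C →⋆ₐ[ℂ] R} (hj : Function.Injective j) (hMp : MpP.{u})
    (hDs : QDsumP.{u}) {n : ℕ} (hT : TSJ j n) {ρ κ : Type}
    [Fintype ρ] [DecidableEq ρ] [Fintype κ] [DecidableEq κ] (f : Fin n → ρ)
    (hf : Function.Injective f) (h : PRe j ρ κ) : PRe j (Unit ⊕ ρ) (Unit ⊕ κ) := by
  intro X η θ hη hθ
  -- the first column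
  obtain ⟨x1, a1, b, w, h1, h2, h3, h4⟩ := hT (fun i => X (Sum.inr (f i)) (Sum.inl ())) η (θ / 2)
    hη (by positivity)
  let x : Matrix ρ Unit C := fun r _ =>
    if hr : ∃ i, f i = r then x1 hr.choose else X (Sum.inr r) (Sum.inl ())
  let a : Matrix Unit ρ C := fun _ r => if hr : ∃ i, f i = r then a1 hr.choose else 0
  have hxf : ∀ i u, x (f i) u = x1 i := by
    intro i u
    have hr : ∃ i', f i' = f i := ⟨i, rfl⟩
    have : hr.choose = i := hf hr.choose_spec
    simp only [x, dif_pos hr, this]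
  have haf : ∀ i u, a u (f i) = a1 i := by
    intro i u
    have hr : ∃ i', f i' = f i := ⟨i, rfl⟩
    have : hr.choose = i := hf hr.choose_spec
    simp only [a, dif_pos hr, this]
  let bm : Matrix Unit Unit C := fun _ _ => b
  let wm : Matrix Unit Unit C := fun _ _ => w
  have hax : a * x + bm * wm = 1 := by
    ext u v
    have e0 : ∑ u' : Unit, bm u u' * wm u' v = b * w := by
      rw [Fintype.sum_unique]
    rw [Matrix.add_apply, Matrix.mul_apply, Matrix.mul_apply, e0,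
      Matrix.one_apply, if_pos rfl, ← h3]
    congr 1
    have e1 : ∑ r, a u r * x r v = ∑ r ∈ Finset.univ.image f, a u r * x r v := by
      symm
      refine Finset.sum_subset (Finset.subset_univ _) fun r _ hr => ?_
      have hr' : ¬ ∃ i, f i = r := by
        rintro ⟨i, rfl⟩
        exact hr (Finset.mem_image_of_mem f (Finset.mem_univ i))
      simp only [a, dif_neg hr', zero_mul]
    rw [e1, Finset.sum_image fun i _ i' _ hii => hf hii]
    refine Finset.sum_congr rfl fun i _ => ?_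
    rw [haf i u, hxf i v]
  -- the other columns
  let x0 : Matrix Unit Unit C := fun _ _ => X (Sum.inl ()) (Sum.inl ())
  let Y0 : Matrix Unit κ C := fun _ k => X (Sum.inl ()) (Sum.inr k)
  let Y : Matrix ρ κ C := fun r k => X (Sum.inr r) (Sum.inr k)
  let p : Matrix Unit ρ C := (1 - x0) * a
  let Z0 : Matrix Unit κ C := Y0 + p * Y
  let Z1 : Matrix ρ κ C := Y - x * Z0
  set S : ℝ := ∑ r, ‖p () r‖ with hS
  have hS0 : 0 ≤ S := Finset.sum_nonneg fun r _ => norm_nonneg _
  obtain ⟨Z2', a2, b2, L2, k1, k2, k3, k4⟩ := h (CStarMatrix.ofMatrix Z1) (η / (1 + S)) (θ / 2)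
    (by positivity) (by positivity)
  let Z2 : Matrix ρ κ C := Z2'
  obtain ⟨A, B, hAB⟩ := alg_core x0 bm wm a x hax Z0 Z2 a2 b2 L2 k3
  have hηS : η / (1 + S) ≤ η := div_le_self hη.le (by linarith)
  refine ⟨CStarMatrix.ofMatrix (Matrix.fromBlocks x0 (Z0 - (1 - x0) * a * (x * Z0 + Z2)) x
    (x * Z0 + Z2)), CStarMatrix.ofMatrix A, CStarMatrix.ofMatrix B, dsum (one1 w) L2, ?_, ?_, ?_,
    ?_⟩
  · -- closeness
    rintro (u | r) (v | k)
    · show ‖X (Sum.inl u) (Sum.inl v) - x0 u v‖ ≤ η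
      have : X (Sum.inl u) (Sum.inl v) - x0 u v = 0 := sub_self _
      rw [this, norm_zero]
      exact hη.le
    · show ‖X (Sum.inl u) (Sum.inr k) -
        (Z0 - (1 - x0) * a * (x * Z0 + Z2) : Matrix Unit κ C) u k‖ ≤ η
      have e1 : (Z0 - (1 - x0) * a * (x * Z0 + Z2) : Matrix Unit κ C) =
          Y0 - p * (Z2 - Z1) := by
        show Y0 + p * Y - p * (x * Z0 + Z2) = Y0 - p * (Z2 - (Y - x * Z0))
        simp only [Matrix.mul_add, Matrix.mul_sub]
        abel
      rw [e1]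
      have e2 : X (Sum.inl u) (Sum.inr k) - (Y0 - p * (Z2 - Z1) : Matrix Unit κ C) u k =
          ∑ r, p u r * (Z2 r k - Z1 r k) := by
        rw [Matrix.sub_apply, Matrix.mul_apply]
        show Y0 u k - (Y0 u k - _) = _
        rw [sub_sub_cancel]
        rfl
      rw [e2]
      refine (norm_sum_le _ _).trans ?_
      have e3 : ∀ r, ‖p u r * (Z2 r k - Z1 r k)‖ ≤ ‖p () r‖ * (η / (1 + S)) := by
        intro r
        refine (norm_mul_le _ _).trans ?_
        refine mul_le_mul_of_nonneg_left ?_ (norm_nonneg _)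
        have := k1 r k
        rw [← norm_neg, neg_sub]
        exact this
      refine (Finset.sum_le_sum fun r _ => e3 r).trans ?_
      rw [← Finset.sum_mul, ← hS, mul_div_assoc', div_le_iff₀ (by positivity)]
      nlinarith
    · show ‖X (Sum.inr r) (Sum.inl v) - x r v‖ ≤ η
      by_cases hr : ∃ i, f i = r
      · obtain ⟨i, rfl⟩ := hr
        rw [hxf i v]
        exact h1 i
      · simp only [x, dif_neg hr]
        rw [sub_self, norm_zero]
        exact hη.le
    · show ‖X (Sum.inr r) (Sum.inr k) - (x * Z0 + Z2 : Matrix ρ κ C) r k‖ ≤ η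
      have e1 : X (Sum.inr r) (Sum.inr k) - (x * Z0 + Z2 : Matrix ρ κ C) r k = Z1 r k - Z2 r k := by
        show Y r k - ((x * Z0) r k + Z2 r k) = Y r k - (x * Z0) r k - Z2 r k
        abel
      rw [e1]
      exact (k1 r k).trans hηS
  · exact dsum_nonneg (one1_nonneg h2) k2
  · exact hAB
  · intro φ σ hσ
    have p1 : 0 ≤ mp j (one1 w) := ((hMp R C j hj Unit Unit (one1 w) (one1 w)).1).1 (one1_nonneg h2)
    have p2 : 0 ≤ mp j L2 := ((hMp R C j hj κ κ L2 L2).1).1 k2
    rw [mp_dsum, (hDs R σ Unit κ _ _ p1 p2).2]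
    have q1 := h4 φ σ hσ
    have q2 := k4 φ σ hσ
    linarith

/-! ## Norm and entries -/

theorem norm_le_entries {ι κ : Type} [Fintype ι] [DecidableEq ι] [Fintype κ] [DecidableEq κ] :
    ∃ K : ℝ, 0 < K ∧ ∀ (M : CStarMatrix ι κ C) (ε : ℝ), 0 ≤ ε → (∀ i k, ‖M i k‖ ≤ ε) →
      ‖M‖ ≤ K * ε := by
  let u : ι → CStarMatrix ι Unit C := fun i => CStarMatrix.ofMatrix fun i' _ => if i' = i then 1 else 0
  let v : κ → CStarMatrix Unit κ C := fun k => CStarMatrix.ofMatrix fun _ k' => if k = k' then 1 else 0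
  have hs : ∀ (f : ι → κ → CStarMatrix ι κ C) (i : ι) (k : κ),
      (∑ i', ∑ k', f i' k') i k = ∑ i', ∑ k', f i' k' i k := by
    intro f i k
    have e1 : (∑ i', ∑ k', f i' k') i k = ∑ i', (∑ k', f i' k') i k := Matrix.sum_apply _ _ _ _
    rw [e1]
    refine Finset.sum_congr rfl fun i' _ => ?_
    exact Matrix.sum_apply _ _ _ _
  have hM : ∀ M : CStarMatrix ι κ C, M = ∑ i, ∑ k, u i * one1 (M i k) * v k := by
    intro M
    ext i k
    rw [hs, Finset.sum_eq_single i, Finset.sum_eq_single k]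
    · rw [CStarMatrix.mul_apply, Fintype.sum_unique, CStarMatrix.mul_apply, Fintype.sum_unique]
      show M i k = (if i = i then (1 : C) else 0) * M i k * (if k = k then (1 : C) else 0)
      simp
    · intro k' _ hk'
      rw [CStarMatrix.mul_apply, Fintype.sum_unique]
      show _ * (if k' = k then (1 : C) else 0) = 0
      rw [if_neg hk', mul_zero]
    · intro h
      exact absurd (Finset.mem_univ _) h
    · intro i' _ hi'
      refine Finset.sum_eq_zero fun k' _ => ?_
      rw [CStarMatrix.mul_apply, Fintype.sum_unique, CStarMatrix.mul_apply, Fintype.sum_unique]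
      show (if i = i' then (1 : C) else 0) * _ * _ = 0
      rw [if_neg (Ne.symm hi'), zero_mul, zero_mul]
    · intro h
      exact absurd (Finset.mem_univ _) h
  refine ⟨1 + ∑ i, ∑ k, ‖u i‖ * ‖v k‖, by positivity, fun M ε hε h => ?_⟩
  have h1 : ‖M‖ ≤ ∑ i, ∑ k, ‖u i‖ * ‖v k‖ * ε := by
    conv_lhs => rw [hM M]
    refine (norm_sum_le _ _).trans (Finset.sum_le_sum fun i _ => ?_)
    refine (norm_sum_le _ _).trans (Finset.sum_le_sum fun k _ => ?_)
    have e1 : ‖one1 (M i k)‖ ≤ ε := by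
      have := NonUnitalStarAlgHom.norm_apply_le (one1H (A := C)) (M i k)
      exact this.trans (h i k)
    calc ‖u i * one1 (M i k) * v k‖ ≤ ‖u i * one1 (M i k)‖ * ‖v k‖ := cm_norm_mul_le _ _
      _ ≤ ‖u i‖ * ‖one1 (M i k)‖ * ‖v k‖ :=
        mul_le_mul_of_nonneg_right (cm_norm_mul_le _ _) (norm_nonneg _)
      _ ≤ ‖u i‖ * ε * ‖v k‖ :=
        mul_le_mul_of_nonneg_right (mul_le_mul_of_nonneg_left e1 (norm_nonneg _)) (norm_nonneg _)
      _ = ‖u i‖ * ‖v k‖ * ε := by ring
  have h2 : ∑ i, ∑ k, ‖u i‖ * ‖v k‖ * ε = (∑ i, ∑ k, ‖u i‖ * ‖v k‖) * ε := by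
    rw [Finset.sum_mul]
    refine Finset.sum_congr rfl fun i _ => ?_
    rw [Finset.sum_mul]
  rw [h2] at h1
  nlinarith

theorem main {j : C →⋆ₐ[ℂ] R} (hj : Function.Injective j) (hMp : MpP.{u})
    (hMono : QMonoP.{u}) (hDs : QDsumP.{u}) {n : ℕ} (hT : TSJ j n) (J : ℕ) :
    PRe j (Fin (J + n)) (Fin (J + 1)) := by
  induction J with
  | zero =>
    exact (base hT).reindex hj hMp hMono (finCongr (by omega))
      (Fintype.equivOfCardEq (by simp))
  | succ J ih =>
    refine (step hj hMp hDs hT (fun i : Fin n => (⟨i, by omega⟩ : Fin (J + n)))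
      (fun i i' h => by
        have := congrArg Fin.val h
        exact Fin.ext this) ih).reindex hj hMp hMono
      (Fintype.equivOfCardEq ?_) (Fintype.equivOfCardEq ?_)
    · simp only [Fintype.card_fin, Fintype.card_sum, Fintype.card_unit]
      omega
    · simp only [Fintype.card_fin, Fintype.card_sum, Fintype.card_unit]
      omega

end Rect

/-- Packet AR-Rect. -/
theorem rectP (hMp : MpP.{u}) (hMono : QMonoP.{u}) (hDs : QDsumP.{u}) (hB : QBasicP.{u}) :
    RectP.{u} := by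
  intro C R _ _ _ _ _ _ j n hj hn hT J ρ _ _ hcard X η θ hη hθ
  rcases J with _ | J
  · refine ⟨X, 0, 0, 0, ?_, le_rfl, ?_, ?_⟩
    · rw [sub_self, norm_zero]
      exact hη.le
    · ext i
      exact i.elim0
    · intro φ σ hσ
      have h0 : (0 : CStarMatrix (Fin 0) (Fin 0) R) ≤ mp j 0 := by
        rw [← sub_nonneg]
        have : mp j (0 : CStarMatrix (Fin 0) (Fin 0) C) - 0 = 0 := by
          ext i
          exact i.elim0
        rw [this]
      have := (hB R σ (Fin 0) (mp j 0) h0).2.2.1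
      simp only [Fintype.card_fin, Nat.cast_zero] at this
      linarith
  · have h1 := (Rect.main hj hMp hMono hDs hT J).reindex hj hMp hMono
      (Fintype.equivOfCardEq (by simp only [Fintype.card_fin]; omega) : ρ ≃ Fin (J + n))
      (Equiv.refl (Fin (J + 1)))
    obtain ⟨K, hK, hK2⟩ := Rect.norm_le_entries (C := C) (ι := ρ) (κ := Fin (J + 1))
    obtain ⟨X', a, b, L, k1, k2, k3, k4⟩ := h1 X (η / K) θ (by positivity) hθ
    refine ⟨X', a, b, L, ?_, k2, k3, k4⟩
    have := hK2 (X - X') (η / K) (by positivity) k1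
    rwa [mul_div_cancel₀ _ hK.ne'] at this

end RC
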